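import Pool.Agent.X270.Cappitt

set_option autoImplicit false

open Pool.Agent.X270.Cappitt
open scoped commutatorElement

namespace Pool.Agent.Results.MP_ca0bb9_al.DerivedFiniteCyclic

/-- For every pro-`p` group `G` with `{1} ≠ S̃(G) ≠ G` the closure of the commutator subgroup is
isomorphic to the finite cyclic group of order `p ^ n` for some `n ≥ 1`. -/
theorem result (p : ℕ) (hp : p.Prime) (G : Type*) [Group G] [TopologicalSpace G]
    [IsTopologicalGroup G] [CompactSpace G] [T2Space G] [TotallyDisconnectedSpace G]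
    (hprop : IsProP p G) (h1 : Stilde G ≠ ⊥) (hS : Stilde G ≠ ⊤) :
    ∃ n : ℕ, 1 ≤ n ∧
      Nonempty ((commutator G).topologicalClosure ≃* Multiplicative (ZMod (p ^ n))) := by
  obtain ⟨c, n, hc, hn⟩ := derived_cyclic hp hprop hS
  refine ⟨n, ?_, ?_⟩
  · by_contra hn0
    have hn1 : n = 0 := by omega
    rw [hn1, pow_zero, orderOf_eq_one_iff] at hn
    rw [hn, Subgroup.zpowers_one_eq_bot] at hc
    apply h1
    have hcomm : ∀ a b : G, Commute a b := by
      intro a b
      have h2 : ⁅a, b⁆ ∈ (commutator G).topologicalClosure :=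
        Subgroup.le_topologicalClosure _ (by
          rw [commutator_def]
          exact Subgroup.commutator_mem_commutator (Subgroup.mem_top a) (Subgroup.mem_top b))
      rw [hc, Subgroup.mem_bot] at h2
      exact commutatorElement_eq_one_iff_commute.1 h2
    have hnormal : ∀ L : Subgroup G, L.Normal := by
      intro L
      refine ⟨fun x hx g => ?_⟩
      have : g * x * g⁻¹ = x := by rw [(hcomm g x).eq]; group
      rw [this]; exact hx
    have hempty : {g : G | ∃ L : Subgroup G, IsClosed (L : Set G) ∧ ¬ L.Normal ∧ g ∈ L} = ∅ := by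
      rw [Set.eq_empty_iff_forall_notMem]
      rintro g ⟨L, -, hL, -⟩
      exact hL (hnormal L)
    unfold Stilde
    rw [hempty, Subgroup.closure_empty]
    refine le_antisymm (Subgroup.topologicalClosure_minimal _ le_rfl ?_) bot_le
    rw [Subgroup.coe_bot]
    exact isClosed_singleton
  rw [hc]
  have hcard : Nat.card (Subgroup.zpowers c) = p ^ n := by rw [Nat.card_zpowers, hn]
  have hcyc : IsCyclic (Subgroup.zpowers c) := inferInstance
  have e := zmodCyclicMulEquiv hcyc
  rw [hcard] at e
  exact ⟨e.symm⟩

end Pool.Agent.Results.MP_ca0bb9_al.DerivedFiniteCyclic
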